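import Pool.Agent.helper36.PT.Spec

/-! # Project PT, row INC: incomplete sums to a modulus `M₀ M₁` -/

set_option autoImplicit false

namespace Pool.Agent.PT

open Finset Pool.Agent.helper71.AA

lemma INC_idx (M₀ r u i : ℕ) (h0 : 0 < M₀) :
    (u - r + M₀ - 1) / M₀ ≤ i ↔ u ≤ r + M₀ * i := by
  rw [← Nat.lt_succ_iff, Nat.div_lt_iff_lt_mul h0]
  have : (i + 1) * M₀ = M₀ * i + M₀ := by ring
  rw [Nat.succ_eq_add_one, this]
  omega

lemma INC_len (M₀ r u v : ℕ) (h0 : 0 < M₀) (huv : u ≤ v) :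
    (((v - r + M₀ - 1) / M₀ : ℕ) : ℝ) - (((u - r + M₀ - 1) / M₀ : ℕ) : ℝ) ≤
      ((v : ℝ) - u) / M₀ + 1 := by
  set v' := (v - r + M₀ - 1) / M₀ with hv'
  set u' := (u - r + M₀ - 1) / M₀ with hu'
  have h0R : (0 : ℝ) < M₀ := by exact_mod_cast h0
  have h1 : v' * M₀ ≤ v - r + M₀ - 1 := Nat.div_mul_le_self _ _
  have h2 : u ≤ r + M₀ * u' := (INC_idx M₀ r u u' h0).1 le_rfl
  have huvR : (u : ℝ) ≤ v := by exact_mod_cast huv
  have h3 : v' * M₀ + u ≤ u' * M₀ + v + M₀ ∨ v' = 0 := by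
    by_cases hvr : v ≤ r
    · right
      have : v - r = 0 := by omega
      rw [hv', this]
      apply Nat.div_eq_of_lt
      omega
    · left
      have : u' * M₀ = M₀ * u' := by ring
      omega
  rcases h3 with h3 | h3
  · have h4 : (v' : ℝ) * M₀ + u ≤ u' * M₀ + v + M₀ := by exact_mod_cast h3
    rw [← sub_le_iff_le_add, le_div_iff₀ h0R]
    nlinarith
  · rw [h3]
    have h5 : (0 : ℝ) ≤ u' := by positivity
    have h6 : 0 ≤ ((v : ℝ) - u) / M₀ := div_nonneg (by linarith) h0R.le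
    push_cast
    linarith

lemma INC_class (h1 : INA_stmt) (M₀ M₁ u v r : ℕ) (h0 : 0 < M₀) (hM₁ : 0 < M₁)
    (hco : M₀.Coprime M₁) (hsq : Squarefree M₁) (huv : u ≤ v) (m : ℤ)
    (hm : IsCoprime m (M₁ : ℤ)) (j : ℕ → ℤ)
    (hj : ∀ e ∈ Ico u v, e.Coprime (M₀ * M₁) → ((M₀ * M₁ : ℕ) : ℤ) ∣ e * j e - m)
    (hr : r < M₀) :
    ‖∑ e ∈ ((Ico u v).filter (fun e => e.Coprime (M₀ * M₁))).filter (fun e => e % M₀ = r),
      ef (j e / ((M₀ * M₁ : ℕ) : ℝ))‖ ≤
      2 ^ M₁.primeFactors.card * Real.sqrt M₁ *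
        ((((v : ℝ) - u) / M₀ + 1) / M₁ + 1 + Real.log M₁) := by
  have h0R : (0 : ℝ) < M₀ := by exact_mod_cast h0
  have h1R : (0 : ℝ) < M₁ := by exact_mod_cast hM₁
  have h1R' : (1 : ℝ) ≤ M₁ := by exact_mod_cast hM₁
  have huvR : (u : ℝ) ≤ v := by exact_mod_cast huv
  have hlog : 0 ≤ Real.log M₁ := Real.log_nonneg h1R'
  have hBnn : 0 ≤ 2 ^ M₁.primeFactors.card * Real.sqrt M₁ *
      ((((v : ℝ) - u) / M₀ + 1) / M₁ + 1 + Real.log M₁) := by
    have h6 : 0 ≤ ((v : ℝ) - u) / M₀ := div_nonneg (by linarith) h0R.le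
    positivity
  by_cases hrc : r.Coprime M₀
  swap
  · rw [Finset.sum_eq_zero]
    · simpa using hBnn
    · intro e he
      exfalso
      rw [Finset.mem_filter, Finset.mem_filter] at he
      apply hrc
      have h2 : e.Coprime M₀ := he.1.2.coprime_mul_right_right
      rw [← he.2]
      have h3 : Nat.gcd (e % M₀) M₀ = Nat.gcd e M₀ := by
        rw [← Nat.gcd_rec, Nat.gcd_comm]
      unfold Nat.Coprime
      rw [h3]
      exact h2
  obtain ⟨s', s, hss⟩ : IsCoprime (M₀ : ℤ) (M₁ : ℤ) := Nat.isCoprime_iff_coprime.2 hco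
  set u' := (u - r + M₀ - 1) / M₀ with hu'
  set v' := (v - r + M₀ - 1) / M₀ with hv'
  have huv' : u' ≤ v' := Nat.div_le_div_right (by omega)
  have hmem : ∀ i ∈ Ico u' v', r + M₀ * i ∈ Ico u v := by
    intro i hi
    rw [Finset.mem_Ico] at hi ⊢
    refine ⟨(INC_idx M₀ r u i h0).1 hi.1, ?_⟩
    by_contra hcon
    have := (INC_idx M₀ r v i h0).2 (not_lt.1 hcon)
    omega
  have hcop0 : ∀ i, (r + M₀ * i).Coprime M₀ := by
    intro i
    rw [Nat.coprime_add_mul_left_left]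
    exact hrc
  have hcop : ∀ i, (r + M₀ * i).Coprime M₁ → (r + M₀ * i).Coprime (M₀ * M₁) := fun i hi =>
    Nat.Coprime.mul_right (hcop0 i) hi
  -- the transformation of the sum
  have hsum : ∑ e ∈ ((Ico u v).filter (fun e => e.Coprime (M₀ * M₁))).filter
        (fun e => e % M₀ = r), ef (j e / ((M₀ * M₁ : ℕ) : ℝ)) =
      ∑ i ∈ (Ico u' v').filter (fun i => (r + M₀ * i).Coprime M₁),
        ef (((s * j (r + M₀ * i) : ℤ) : ℝ) / M₀) *
          ef (((s' * j (r + M₀ * i) : ℤ) : ℝ) / M₁) := by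
    refine Finset.sum_nbij' (fun e => e / M₀) (fun i => r + M₀ * i) ?_ ?_ ?_ ?_ ?_
    · intro e he
      rw [Finset.mem_filter, Finset.mem_filter, Finset.mem_Ico] at he
      have hem : r + M₀ * (e / M₀) = e := by
        have := Nat.mod_add_div e M₀
        rw [he.2] at this
        exact this
      rw [Finset.mem_filter, Finset.mem_Ico]
      refine ⟨⟨(INC_idx M₀ r u _ h0).2 (by rw [hem]; exact he.1.1.1), ?_⟩, ?_⟩
      · by_contra hcon
        have := (INC_idx M₀ r v _ h0).1 (not_lt.1 hcon)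
        rw [hem] at this
        omega
      · rw [hem]
        exact he.1.2.coprime_mul_left_right
    · intro i hi
      rw [Finset.mem_filter] at hi
      rw [Finset.mem_filter, Finset.mem_filter]
      refine ⟨⟨hmem i hi.1, hcop i hi.2⟩, ?_⟩
      rw [Nat.add_mul_mod_self_left]
      exact Nat.mod_eq_of_lt hr
    · intro e he
      rw [Finset.mem_filter] at he
      have := Nat.mod_add_div e M₀
      rw [he.2] at this
      exact this
    · intro i hi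
      show (r + M₀ * i) / M₀ = i
      rw [Nat.add_mul_div_left _ _ h0, Nat.div_eq_of_lt hr, zero_add]
    · intro e he
      rw [Finset.mem_filter] at he
      have hem : r + M₀ * (e / M₀) = e := by
        have := Nat.mod_add_div e M₀
        rw [he.2] at this
        exact this
      show ef (j e / ((M₀ * M₁ : ℕ) : ℝ)) =
        ef (((s * j (r + M₀ * (e / M₀)) : ℤ) : ℝ) / M₀) *
          ef (((s' * j (r + M₀ * (e / M₀)) : ℤ) : ℝ) / M₁)
      rw [hem, ← ef_add]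
      congr 1
      have hssR : (s' : ℝ) * M₀ + s * M₁ = 1 := by exact_mod_cast hss
      push_cast
      rw [div_add_div _ _ h0R.ne' h1R.ne', div_eq_div_iff (by positivity) (by positivity)]
      have h4 : (s : ℝ) * (j e : ℝ) * M₁ + M₀ * (s' * (j e : ℝ)) = (j e : ℝ) := by
        calc (s : ℝ) * (j e : ℝ) * M₁ + M₀ * (s' * (j e : ℝ)) =
            (s' * M₀ + s * M₁) * (j e : ℝ) := by ring
          _ = (j e : ℝ) := by rw [hssR, one_mul]
      rw [h4]
  rw [hsum]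
  -- the factor modulo `M₀` is constant
  rcases Finset.eq_empty_or_nonempty ((Ico u' v').filter (fun i => (r + M₀ * i).Coprime M₁))
    with hemp | ⟨i₀, hi₀⟩
  · rw [hemp]
    simpa using hBnn
  have hdvd : ∀ i ∈ (Ico u' v').filter (fun i => (r + M₀ * i).Coprime M₁),
      ((M₀ * M₁ : ℕ) : ℤ) ∣ ((r + M₀ * i : ℕ) : ℤ) * j (r + M₀ * i) - m := by
    intro i hi
    rw [Finset.mem_filter] at hi
    exact hj _ (hmem i hi.1) (hcop i hi.2)
  have hconst : ∀ i ∈ (Ico u' v').filter (fun i => (r + M₀ * i).Coprime M₁),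
      ef (((s * j (r + M₀ * i) : ℤ) : ℝ) / M₀) = ef (((s * j (r + M₀ * i₀) : ℤ) : ℝ) / M₀) := by
    intro i hi
    have hd1 : (M₀ : ℤ) ∣ ((r + M₀ * i : ℕ) : ℤ) * j (r + M₀ * i) - m :=
      (Dvd.intro (M₁ : ℤ) (by push_cast; ring)).trans (hdvd i hi)
    have hd2 : (M₀ : ℤ) ∣ ((r + M₀ * i₀ : ℕ) : ℤ) * j (r + M₀ * i₀) - m :=
      (Dvd.intro (M₁ : ℤ) (by push_cast; ring)).trans (hdvd i₀ hi₀)
    have hd3 : (M₀ : ℤ) ∣ (r : ℤ) * (j (r + M₀ * i) - j (r + M₀ * i₀)) := by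
      have h5 : (r : ℤ) * (j (r + M₀ * i) - j (r + M₀ * i₀)) =
          (((r + M₀ * i : ℕ) : ℤ) * j (r + M₀ * i) - m) -
            (((r + M₀ * i₀ : ℕ) : ℤ) * j (r + M₀ * i₀) - m) -
            (M₀ : ℤ) * (i * j (r + M₀ * i) - i₀ * j (r + M₀ * i₀)) := by
        push_cast
        ring
      rw [h5]
      exact dvd_sub (dvd_sub hd1 hd2) (dvd_mul_right _ _)
    have hd4 : (M₀ : ℤ) ∣ j (r + M₀ * i) - j (r + M₀ * i₀) := by
      have h6 : IsCoprime (M₀ : ℤ) (r : ℤ) := Nat.isCoprime_iff_coprime.2 hrc.symm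
      exact h6.dvd_of_dvd_mul_left hd3
    obtain ⟨t, ht⟩ := hd4
    have h7 : (((s * j (r + M₀ * i) : ℤ) : ℝ) / M₀) =
        (((s * j (r + M₀ * i₀) : ℤ) : ℝ) / M₀) + ((s * t : ℤ) : ℝ) := by
      have h8 : j (r + M₀ * i) = j (r + M₀ * i₀) + M₀ * t := by linarith
      rw [h8]
      push_cast
      field_simp
    rw [h7, ef_add_int]
  have hfac : ∑ i ∈ (Ico u' v').filter (fun i => (r + M₀ * i).Coprime M₁),
        ef (((s * j (r + M₀ * i) : ℤ) : ℝ) / M₀) *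
          ef (((s' * j (r + M₀ * i) : ℤ) : ℝ) / M₁) =
      ef (((s * j (r + M₀ * i₀) : ℤ) : ℝ) / M₀) *
        ∑ i ∈ (Ico u' v').filter (fun i => (r + M₀ * i).Coprime M₁),
          ef (((s' * j (r + M₀ * i) : ℤ) : ℝ) / M₁) := by
    rw [Finset.mul_sum]
    refine Finset.sum_congr rfl (fun i hi => ?_)
    rw [hconst i hi]
  rw [hfac, norm_mul, ef_norm, one_mul]
  have hmain := h1 M₀ M₁ r u' v' hM₁ hco hsq huv' (s' * m)
    (by
      refine IsCoprime.mul_left ?_ hm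
      exact ⟨(M₀ : ℤ), s, by linarith⟩)
    (fun i => s' * j (r + M₀ * i))
    (by
      intro i hi hic
      have h9 := hdvd i (Finset.mem_filter.2 ⟨hi, hic⟩)
      have h10 : (M₁ : ℤ) ∣ ((r + M₀ * i : ℕ) : ℤ) * j (r + M₀ * i) - m :=
        (Dvd.intro_left (M₀ : ℤ) (by push_cast; ring)).trans h9
      have h11 : ((r : ℤ) + M₀ * i) * (s' * j (r + M₀ * i)) - s' * m =
          s' * (((r + M₀ * i : ℕ) : ℤ) * j (r + M₀ * i) - m) := by
        push_cast
        ring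
      rw [h11]
      exact dvd_mul_of_dvd_right h10 _)
  refine hmain.trans ?_
  have hlen := INC_len M₀ r u v h0 huv
  rw [← hu', ← hv'] at hlen
  gcongr

/-- **INC**. -/
theorem INC (h1 : INA_stmt) : INC_stmt := by
  intro M₀ M₁ u v h0 hM₁ hco hsq huv m hm j hj
  have h0R : (0 : ℝ) < M₀ := by exact_mod_cast h0
  have h1R : (0 : ℝ) < M₁ := by exact_mod_cast hM₁
  have h1R' : (1 : ℝ) ≤ M₁ := by exact_mod_cast hM₁
  have huvR : (u : ℝ) ≤ v := by exact_mod_cast huv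
  have hlog : 0 ≤ Real.log M₁ := Real.log_nonneg h1R'
  have hsplit : ∑ e ∈ (Ico u v).filter (fun e => e.Coprime (M₀ * M₁)),
      ef (j e / ((M₀ * M₁ : ℕ) : ℝ)) =
      ∑ r ∈ range M₀, ∑ e ∈ ((Ico u v).filter (fun e => e.Coprime (M₀ * M₁))).filter
        (fun e => e % M₀ = r), ef (j e / ((M₀ * M₁ : ℕ) : ℝ)) := by
    rw [Finset.sum_fiberwise_of_maps_to]
    intro e _
    exact Finset.mem_range.2 (Nat.mod_lt _ h0)
  rw [hsplit]
  refine (norm_sum_le _ _).trans ?_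
  refine (Finset.sum_le_sum (fun r hr => INC_class h1 M₀ M₁ u v r h0 hM₁ hco hsq huv m hm j hj
    (Finset.mem_range.1 hr))).trans ?_
  rw [Finset.sum_const, Finset.card_range, nsmul_eq_mul]
  have hsqrt : Real.sqrt M₁ * Real.sqrt M₁ = M₁ := Real.mul_self_sqrt h1R.le
  have hspos : 0 < Real.sqrt M₁ := Real.sqrt_pos.2 h1R
  set S := Real.sqrt M₁ with hS
  set T : ℝ := 2 ^ M₁.primeFactors.card with hT
  have hTpos : 0 < T := by positivity
  set L := Real.log M₁ with hL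
  have h2 : (M₀ : ℝ) * (T * S * ((((v : ℝ) - u) / M₀ + 1) / M₁ + 1 + L)) =
      T * (((v : ℝ) - u) / S + M₀ * S * (1 / M₁ + 1 + L)) := by
    rw [← hsqrt]
    field_simp
    ring
  rw [h2]
  have h3 : (1 : ℝ) / M₁ ≤ 1 := by
    rw [div_le_one h1R]
    exact h1R'
  have h4 : 1 / (M₁ : ℝ) + 1 + L ≤ 2 + L := by linarith
  gcongr

end Pool.Agent.PT
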